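import Pool.Agent.H91.RF.TargetsK

/-!
# MP_609556_an, module FRM: positivity and lower bound of `p` at the ratio
-/

open MeasureTheory Set Filter Topology Metric
open Pool.Agent.H29.TF (hk P)
open Pool.Agent.H91.RD
open Pool.Agent.H91.RF

namespace Pool.Agent.H66.RF.FRM

/-- the numerical inequality -/
theorem num (N : ℕ) {H C v K cc : ℝ} (hH : 0 < H) (hcc : 0 < cc) (hC : 1 ≤ C) (hv : 0 < v) :
    ∃ τ0 ≥ 1, ∀ τ ≥ τ0, 2 * Real.exp (-((K + (cc + 2) ^ 2 + 1) * τ)) ≤
      H / (4 * (2 * cc + 4) * τ) * (Real.exp (-(K * τ)) *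
        ((4 * Real.pi * τ) ^ (-(N : ℝ) / 2) *
          Real.exp (-((2 * cc + 4) * τ + 1) ^ 2 / (4 * τ)))) *
        ((H / (4 * (2 * cc + 4) * τ * C)) ^ N * v) := by
  have hlim := Real.tendsto_pow_mul_exp_neg_atTop_nhds_zero (2 * N + 1)
  set c : ℝ := H / (4 * (2 * cc + 4)) * (((4 * Real.pi) ^ N)⁻¹ * Real.exp (-(cc + 3))) *
    ((H / (4 * (2 * cc + 4) * C)) ^ N * v) with hc
  have hpi := Real.pi_pos
  have hc0 : 0 < c := by positivity
  have hev : ∀ᶠ τ : ℝ in atTop, τ ^ (2 * N + 1) * Real.exp (-τ) < c / 2 :=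
    hlim.eventually (gt_mem_nhds (by positivity))
  obtain ⟨τ1, h1⟩ := eventually_atTop.1 hev
  refine ⟨max τ1 1, le_max_right _ _, fun τ hτ => ?_⟩
  have hτ1 : τ1 ≤ τ := le_trans (le_max_left _ _) hτ
  have hτ2 : 1 ≤ τ := le_trans (le_max_right _ _) hτ
  have hτ0 : 0 < τ := by linarith
  have h2 := h1 τ hτ1
  -- lower bound for the Gaussian prefactor
  have e1 : ((4 * Real.pi * τ) ^ N)⁻¹ ≤ (4 * Real.pi * τ) ^ (-(N : ℝ) / 2) := by
    have hb : 1 ≤ 4 * Real.pi * τ := by nlinarith [Real.pi_gt_three]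
    rw [← Real.rpow_natCast, ← Real.rpow_neg (by positivity)]
    apply Real.rpow_le_rpow_of_exponent_le hb
    have : (0:ℝ) ≤ N := Nat.cast_nonneg N
    linarith
  have e2 : Real.exp (-(cc + 3)) * Real.exp (-((cc + 2) ^ 2 * τ)) ≤
      Real.exp (-((2 * cc + 4) * τ + 1) ^ 2 / (4 * τ)) := by
    rw [← Real.exp_add]
    apply Real.exp_le_exp.2
    rw [le_div_iff₀ (by positivity)]
    nlinarith
  have e3 : (H / (4 * (2 * cc + 4) * τ * C)) ^ N = (H / (4 * (2 * cc + 4) * C)) ^ N * (τ ^ N)⁻¹ := by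
    rw [show H / (4 * (2 * cc + 4) * τ * C) = H / (4 * (2 * cc + 4) * C) * τ⁻¹ by
      field_simp, mul_pow, inv_pow]
  have e4 : H / (4 * (2 * cc + 4) * τ) = H / (4 * (2 * cc + 4)) * τ⁻¹ := by
    field_simp
  rw [e3, e4]
  calc 2 * Real.exp (-((K + (cc + 2) ^ 2 + 1) * τ))
      = 2 * Real.exp (-τ) * (Real.exp (-(K * τ)) * Real.exp (-((cc + 2) ^ 2 * τ))) := by
        rw [mul_assoc, ← Real.exp_add, ← Real.exp_add]
        congr 2
        ring
    _ ≤ (c * (τ ^ (2 * N + 1))⁻¹) * (Real.exp (-(K * τ)) * Real.exp (-((cc + 2) ^ 2 * τ))) := by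
        apply mul_le_mul_of_nonneg_right _ (by positivity)
        rw [← div_eq_mul_inv, le_div_iff₀ (by positivity)]
        nlinarith [Real.exp_pos (-τ)]
    _ = H / (4 * (2 * cc + 4)) * τ⁻¹ * (Real.exp (-(K * τ)) * (((4 * Real.pi * τ) ^ N)⁻¹ *
          (Real.exp (-(cc + 3)) * Real.exp (-((cc + 2) ^ 2 * τ))))) *
          ((H / (4 * (2 * cc + 4) * C)) ^ N * (τ ^ N)⁻¹ * v) := by
        rw [hc, mul_pow (4 * Real.pi) τ N, pow_add, pow_mul, pow_two, pow_one]
        rw [show (τ * τ) ^ N = τ ^ N * τ ^ N by rw [mul_pow]]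
        simp only [mul_inv]
        ring
    _ ≤ _ := by
        gcongr

/-- lower bound of the heat kernel -/
theorem hk_lower {N : ℕ} {τ r : ℝ} (hτ : 0 < τ) {z : E N} (hz : ‖z‖ ≤ r) :
    (4 * Real.pi * τ) ^ (-(N : ℝ) / 2) * Real.exp (-r ^ 2 / (4 * τ)) ≤ hk τ z := by
  unfold Pool.Agent.H29.TF.hk
  rw [finrank_euclideanSpace_fin]
  have hr : ‖z‖ ^ 2 ≤ r ^ 2 := by
    have := norm_nonneg z
    nlinarith
  gcongr

/-- lower bound of an integral against a kernel comparable to the heat kernel -/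
theorem int_lower {N : ℕ} {τ κ q m1 C r μ : ℝ} (hτ : 0 < τ) (hq : 0 ≤ q)
    (hm1 : 0 ≤ m1) (hC : 0 ≤ C) {G p : E N → ℝ} {x ys : E N} {ρs : ℝ}
    (hG : Measurable G) (hGl : ∀ y, Real.exp (-κ) * hk τ (x - y) ≤ G y)
    (hGu : ∀ y, G y ≤ Real.exp κ * hk τ (x - y)) (hp : Measurable p) {M : ℝ}
    (hpb : ∀ y, |p y| ≤ M) (hμ : μ = (volume (closedBall ys ρs)).toReal)
    (hball : ∀ y ∈ closedBall ys ρs, ‖x - y‖ ≤ r)
    {rr : ℝ} (hlow' : ∀ y, (closedBall ys ρs).indicator (fun _ => q) y - m1 -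
      {y | rr ≤ dist x y}.indicator (fun _ => C) y ≤ p y) :
    q * (Real.exp (-κ) * ((4 * Real.pi * τ) ^ (-(N : ℝ) / 2) *
      Real.exp (-r ^ 2 / (4 * τ)))) * μ - m1 * Real.exp κ -
      C * (Real.exp κ * P τ ({y : E N | rr ≤ dist x y}.indicator (fun _ => 1)) x) ≤
      ∫ y, G y * p y := by
  have hG0 : ∀ y, 0 ≤ G y := fun y =>
    le_trans (mul_nonneg (Real.exp_pos _).le (Pool.Agent.H29.TF.hk_nonneg hτ.le _)) (hGl y)
  have hkI : Integrable (fun y : E N => hk τ (x - y)) := Pool.Agent.H29.TF.integrable_hk_sub hτ x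
  have hGI : Integrable G := by
    refine Integrable.mono' (hkI.const_mul (Real.exp κ)) hG.aestronglyMeasurable ?_
    filter_upwards with y
    rw [Real.norm_of_nonneg (hG0 y)]
    exact hGu y
  have hmA : MeasurableSet {y : E N | rr ≤ dist x y} :=
    measurableSet_le measurable_const (measurable_const.dist measurable_id)
  have hpI : Integrable (fun y => G y * p y) := by
    refine Integrable.mono' (hGI.mul_const M) (hG.mul hp).aestronglyMeasurable ?_
    filter_upwards with y
    rw [norm_mul, Real.norm_of_nonneg (hG0 y)]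
    exact mul_le_mul_of_nonneg_left (hpb y) (hG0 y)
  have i1 : Integrable (fun y => (closedBall ys ρs).indicator (fun y => q * G y) y) :=
    (hGI.const_mul q).indicator measurableSet_closedBall
  have i2 : Integrable (fun y => m1 * G y) := hGI.const_mul m1
  have i3 : Integrable (fun y => {y | rr ≤ dist x y}.indicator (fun y => C * G y) y) :=
    (hGI.const_mul C).indicator hmA
  have i12 : Integrable (fun y => (closedBall ys ρs).indicator (fun y => q * G y) y - m1 * G y) :=
    i1.sub i2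
  have i123 : Integrable (fun y => (closedBall ys ρs).indicator (fun y => q * G y) y - m1 * G y -
      {y | rr ≤ dist x y}.indicator (fun y => C * G y) y) := i12.sub i3
  have key : (∫ y, ((closedBall ys ρs).indicator (fun y => q * G y) y - m1 * G y -
      {y | rr ≤ dist x y}.indicator (fun y => C * G y) y)) ≤ ∫ y, G y * p y := by
    apply integral_mono i123 hpI
    intro y
    have h := mul_le_mul_of_nonneg_left (hlow' y) (hG0 y)
    refine le_trans (le_of_eq ?_) h
    by_cases h1 : y ∈ closedBall ys ρs <;> by_cases h2 : y ∈ {y | rr ≤ dist x y} <;>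
      simp only [indicator_of_mem, indicator_of_notMem, h1, h2, not_false_eq_true] <;> ring
  rw [integral_sub i12 i3, integral_sub i1 i2] at key
  rw [integral_const_mul] at key
  have k1 : q * (Real.exp (-κ) * ((4 * Real.pi * τ) ^ (-(N : ℝ) / 2) *
      Real.exp (-r ^ 2 / (4 * τ)))) * μ ≤
      ∫ y, (closedBall ys ρs).indicator (fun y => q * G y) y := by
    rw [integral_indicator measurableSet_closedBall]
    have hfin : volume (closedBall ys ρs) ≠ ⊤ := measure_closedBall_lt_top.ne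
    have : ∫ y in closedBall ys ρs, (q * (Real.exp (-κ) * ((4 * Real.pi * τ) ^ (-(N : ℝ) / 2) *
      Real.exp (-r ^ 2 / (4 * τ))))) = q * (Real.exp (-κ) * ((4 * Real.pi * τ) ^ (-(N : ℝ) / 2) *
      Real.exp (-r ^ 2 / (4 * τ)))) * μ := by
      rw [setIntegral_const, smul_eq_mul, hμ, measureReal_def]
      ring
    rw [← this]
    apply setIntegral_mono_on _ (hGI.const_mul q).integrableOn measurableSet_closedBall
    · intro y hy
      apply mul_le_mul_of_nonneg_left _ hq
      refine le_trans ?_ (hGl y)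
      exact mul_le_mul_of_nonneg_left (hk_lower hτ (hball y hy)) (Real.exp_pos _).le
    · exact integrableOn_const hfin
  have k2 : ∫ y, G y ≤ Real.exp κ := by
    calc ∫ y, G y ≤ ∫ y : E N, Real.exp κ * hk τ (x - y) :=
          integral_mono hGI (hkI.const_mul _) hGu
      _ = Real.exp κ := by
          rw [integral_const_mul, Pool.Agent.H29.TF.integral_hk_sub hτ, mul_one]
  have k3 : (∫ y, {y | rr ≤ dist x y}.indicator (fun y => C * G y) y) ≤
      C * (Real.exp κ * P τ ({y : E N | rr ≤ dist x y}.indicator (fun _ => 1)) x) := by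
    have : C * (Real.exp κ * P τ ({y : E N | rr ≤ dist x y}.indicator (fun _ => 1)) x) =
        ∫ y, C * (Real.exp κ * (hk τ (x - y) *
          ({y : E N | rr ≤ dist x y}.indicator (fun _ => (1:ℝ)) y))) := by
      rw [integral_const_mul, integral_const_mul]
      rfl
    rw [this]
    apply integral_mono i3
    · apply Integrable.const_mul
      apply Integrable.const_mul
      refine Integrable.mono' hkI ?_ ?_
      · exact (hkI.aestronglyMeasurable.mul
          ((measurable_const.indicator hmA).aestronglyMeasurable))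
      · filter_upwards with y
        rw [norm_mul, Real.norm_of_nonneg (Pool.Agent.H29.TF.hk_nonneg hτ.le _)]
        have : ‖{y : E N | rr ≤ dist x y}.indicator (fun _ => (1:ℝ)) y‖ ≤ 1 := by
          simp only [indicator_apply]
          split_ifs <;> simp
        exact mul_le_of_le_one_right (Pool.Agent.H29.TF.hk_nonneg hτ.le _) this
    · intro y
      simp only [indicator_apply]
      split_ifs with h
      · rw [mul_one]
        exact mul_le_mul_of_nonneg_left (hGu y) hC
      · simp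
  have k4 := mul_le_mul_of_nonneg_left k2 hm1
  linarith

/-- mean value theorem on a segment -/
theorem mvt {N : ℕ} {v : E N → ℝ} (hv : Differentiable ℝ v) (x e : E N) {r : ℝ} (hr : 0 < r) :
    ∃ c, |c| ≤ r ∧ v (x - r • e) - v (x + r • e) = 2 * r * -(fderiv ℝ v (x + c • e) e) := by
  have hd : ∀ c : ℝ, HasDerivAt (fun c : ℝ => v (x + c • e)) (fderiv ℝ v (x + c • e) e) c := by
    intro c
    have h1 : HasDerivAt (fun c : ℝ => x + c • e) e c := by
      have := ((hasDerivAt_id c).smul_const e).const_add x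
      simpa using this
    exact (hv (x + c • e)).hasFDerivAt.comp_hasDerivAt c h1
  obtain ⟨c, hc, h⟩ := exists_hasDerivAt_eq_slope (fun c : ℝ => v (x + c • e))
    (fun c => fderiv ℝ v (x + c • e) e) (a := -r) (b := r) (by linarith)
    (fun c _ => (hd c).continuousAt.continuousWithinAt) (fun c _ => hd c)
  refine ⟨c, abs_le.2 ⟨hc.1.le, hc.2.le⟩, ?_⟩
  have h2 : r - -r = 2 * r := by ring
  rw [h2] at h
  rw [h]
  have h3 : x - r • e = x + (-r) • e := by rw [neg_smul, sub_eq_add_neg]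
  rw [h3]
  field_simp
  ring

/-- fall of the level across the box -/
theorem fall (hG : T_GEOB) {N : ℕ} {U : Set (E N)} {u : ℝ → E N → ℝ} {cc lo hi : ℝ}
    (hC : CondC U) (hne : U.Nonempty) (hM : Mac U u cc lo hi) :
    ∃ σm > 0, σm ≤ 1 / 4 ∧ σm ≤ cc / 2 ∧ ∀ σ, 0 < σ → σ ≤ σm → ∃ T > 0, ∀ t ≥ T, ∀ x e,
      NDir U (1 / 2) x e → |infDist x U - cc * t| ≤ σ * t →
      (hi - lo) / 2 ≤ u ((1 - σ) * t) (x - ((2 * cc + 4) * (σ * t)) • e) -
        u ((1 - σ) * t) (x + ((2 * cc + 4) * (σ * t)) • e) := by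
  have hcc := hM.cpos
  have hlh := hM.lohi
  obtain ⟨Cg, hCg, ρ0, hρ0, hGE⟩ := hG N U (cc / 2) (2 * cc + 2) hC hne (by linarith) (by linarith)
  have hRpos : 0 < 2 * cc + 4 := by linarith
  refine ⟨min (1 / 4) (min (cc / 2) (min (ρ0 / (2 * cc + 4)) (1 / (4 * Cg * (2 * cc + 4) ^ 2)))),
    by positivity, min_le_left _ _, le_trans (min_le_right _ _) (min_le_left _ _), ?_⟩
  intro σ hσ hσm
  have s1 : σ ≤ 1 / 4 := le_trans hσm (min_le_left _ _)
  have s2 : σ ≤ cc / 2 := le_trans hσm (le_trans (min_le_right _ _) (min_le_left _ _))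
  have s3 : σ ≤ ρ0 / (2 * cc + 4) := le_trans hσm (le_trans (min_le_right _ _)
    (le_trans (min_le_right _ _) (min_le_left _ _)))
  have s4 : σ ≤ 1 / (4 * Cg * (2 * cc + 4) ^ 2) := le_trans hσm (le_trans (min_le_right _ _)
    (le_trans (min_le_right _ _) (min_le_right _ _)))
  have s3' : (2 * cc + 4) * σ ≤ ρ0 := by
    rw [le_div_iff₀ hRpos] at s3; linarith
  have s4' : Cg * ((2 * cc + 4) * σ) ^ 2 ≤ σ / 4 := by
    rw [le_div_iff₀ (by positivity)] at s4
    have : σ * (σ * (4 * Cg * (2 * cc + 4) ^ 2)) ≤ σ * 1 := mul_le_mul_of_nonneg_left s4 hσ.le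
    have h2 : Cg * ((2 * cc + 4) * σ) ^ 2 = σ * (σ * (4 * Cg * (2 * cc + 4) ^ 2)) / 4 := by ring
    rw [h2]
    linarith
  obtain ⟨η, hη, T1, hT1, hB⟩ := hGE ((2 * cc + 4) * σ) (by positivity) s3' (σ / 8) (by positivity)
  set ε := min σ ((hi - lo) / 4) with hε
  have hε0 : 0 < ε := lt_min hσ (by linarith)
  have hε1 : ε ≤ σ := min_le_left _ _
  have hε2 : ε ≤ (hi - lo) / 4 := min_le_right _ _
  obtain ⟨Ta, hTa, ha⟩ := hM.ahead ε hε0
  obtain ⟨Tb, hTb, hb⟩ := hM.behind ε hε0
  refine ⟨T1 + 2 * Ta + 2 * Tb, by positivity, ?_⟩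
  intro t ht x e hN hd
  obtain ⟨he, ξ, e0, hdir, hee⟩ := hN
  have ht0 : 0 < t := by linarith
  obtain ⟨hd1, hd2⟩ := abs_le.1 hd
  have hσt4 : σ * t ≤ 1 / 4 * t := mul_le_mul_of_nonneg_right s1 ht0.le
  have hστ0 : 0 < σ * t := by positivity
  have hsa : Ta ≤ (1 - σ) * t := by linarith
  have hsb : Tb ≤ (1 - σ) * t := by linarith
  have hin : 7 / 8 ≤ inner ℝ e e0 := by
    have h1 := norm_sub_sq_real e e0
    rw [he, hdir.unit] at h1
    have h2 : ‖e - e0‖ ^ 2 ≤ (1 / 2) ^ 2 := by
      apply pow_le_pow_left₀ (norm_nonneg _) hee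
    linarith
  have hN0 : NDir U η x e0 := ⟨hdir.unit, ξ, e0, hdir, by simpa using hη.le⟩
  have hστ : σ * t ≤ cc / 2 * t := mul_le_mul_of_nonneg_right s2 ht0.le
  have hlo : cc / 2 * t ≤ infDist x U := by linarith
  have hup : infDist x U ≤ (2 * cc + 2) * t := by
    have : 0 < cc * t := by positivity
    linarith
  have hbox := hB t (by linarith) x e0 hN0 hlo hup
  have hr1 : 0 < (2 * cc + 4) * (σ * t) := by positivity
  -- behind
  have b1 : dist (x - ((2 * cc + 4) * (σ * t)) • e) x ≤ (2 * cc + 4) * σ * t := by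
    rw [dist_eq_norm, sub_sub_cancel_left, norm_neg, norm_smul, he, mul_one,
      Real.norm_of_nonneg hr1.le]
    linarith
  have b2 := (hbox _ b1).2
  rw [sub_sub_cancel_left, inner_neg_left, real_inner_smul_left] at b2
  have b3 : (2 * cc + 4) * (σ * t) * (7 / 8) ≤ (2 * cc + 4) * (σ * t) * inner ℝ e e0 :=
    mul_le_mul_of_nonneg_left hin hr1.le
  have b4 : Cg * ((2 * cc + 4) * σ) ^ 2 * t ≤ σ / 4 * t := mul_le_mul_of_nonneg_right s4' ht0.le
  have b5 : ε * ((1 - σ) * t) ≤ σ * t := by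
    have g1 : ε * ((1 - σ) * t) ≤ σ * ((1 - σ) * t) :=
      mul_le_mul_of_nonneg_right hε1 (by linarith)
    have g2 : σ * ((1 - σ) * t) ≤ σ * t :=
      mul_le_mul_of_nonneg_left (by linarith) hσ.le
    linarith
  have b5' : 0 < cc * (σ * t) := by positivity
  have b6 : infDist (x - ((2 * cc + 4) * (σ * t)) • e) U ≤ (cc - ε) * ((1 - σ) * t) := by
    linarith
  have b7 := hb _ hsb _ b6
  -- ahead
  have a1 : dist (x + ((2 * cc + 4) * (σ * t)) • e) x ≤ (2 * cc + 4) * σ * t := by
    rw [dist_eq_norm, add_sub_cancel_left, norm_smul, he, mul_one,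
      Real.norm_of_nonneg hr1.le]
    linarith
  have a2 := (hbox _ a1).1
  rw [add_sub_cancel_left, real_inner_smul_left] at a2
  have a6 : (cc + ε) * ((1 - σ) * t) ≤ infDist (x + ((2 * cc + 4) * (σ * t)) • e) U := by
    linarith
  have a7 := ha _ hsa _ a6
  linarith

/-- lower bound of `p` at the ratio, fixed `σ` -/
theorem core (hE1 : Pool.Agent.H91.RF.T_E1) (hG : T_GEOB) (hL : T_LINU) (hK : T_KER)
    (hR : T_KREP) (hT : T_TAIL) {N : ℕ} {f : ℝ → ℝ} {K cc lo hi : ℝ} {U : Set (E N)}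
    {u : ℝ → E N → ℝ} (hS : Stg f K U u) (hM : Mac U u cc lo hi) :
    ∃ C4 ≥ 1, ∃ σm > 0, ∃ η1 > 0, ∀ σ, 0 < σ → σ ≤ σm → ∃ T > 0, ∀ t ≥ T, ∀ x e,
      NDir U η1 x e → |infDist x U - cc * t| ≤ σ * t →
      Real.exp (-(C4 * (σ * t))) ≤ -dx u e t x := by
  have hcc := hM.cpos
  have hlh := hM.lohi
  have hK0 := hS.lip.K0
  obtain ⟨σm, hσm, hσm1, hσm2, hfall⟩ := fall hG hS.condC hS.ne hM
  obtain ⟨hPt, -, hLin, C0, hCb⟩ := hL N f K U u hS.reac hS.lip hS.sol
  set C := max C0 1 with hCdef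
  have hC1 : 1 ≤ C := le_max_right _ _
  have hC0 : C0 ≤ C := le_max_left _ _
  set C3 := K + (cc + 2) ^ 2 + 1 with hC3
  have hC31 : 1 ≤ C3 := by nlinarith
  obtain ⟨ηE, hηE, TE, hTE, hE⟩ := hE1 N f K U u hS (K + C3 + 1) (by linarith) (cc / 2)
    (by linarith)
  set v := (volume (ball (0 : E N) 1)).toReal with hv
  have hv0 : 0 < v := ENNReal.toReal_pos (measure_ball_pos volume _ one_pos).ne'
    measure_ball_lt_top.ne
  obtain ⟨τ0, hτ0, hnum⟩ := num N (K := K) (show 0 < (hi - lo) / 2 by linarith) hcc hC1 hv0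
  set A : ℝ := (1 / 2 : ℝ) ^ (-(N : ℝ) / 2) with hA
  have hA0 : 0 < A := by positivity
  refine ⟨C3, hC31, min σm (min ηE (ηE ^ 2 / (8 * (K + C3 + 1)))), by positivity,
    min ηE (1 / 2), by positivity, ?_⟩
  intro σ hσ hσle
  have s1 : σ ≤ σm := le_trans hσle (min_le_left _ _)
  have s2 : σ ≤ ηE := le_trans hσle (le_trans (min_le_right _ _) (min_le_left _ _))
  have s3 : σ ≤ ηE ^ 2 / (8 * (K + C3 + 1)) :=
    le_trans hσle (le_trans (min_le_right _ _) (min_le_right _ _))
  obtain ⟨T1, hT1, hf⟩ := hfall σ hσ s1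
  refine ⟨T1 + TE + τ0 / σ + 2 + 2 * C * A, by positivity, ?_⟩
  intro t ht x e hN hd
  have hτσ : 0 < τ0 / σ := by positivity
  have hCA : 0 < 2 * C * A := by positivity
  have ht0 : 0 < t := by linarith
  have hNd := hN
  obtain ⟨he, ξ, e0, hdir, hee⟩ := hN
  obtain ⟨hd1, hd2⟩ := abs_le.1 hd
  set τ := σ * t with hτ
  have hττ0 : τ0 ≤ τ := by
    have : τ0 / σ ≤ t := by linarith
    rw [div_le_iff₀ hσ] at this
    linarith
  have hτpos : 0 < τ := by linarith
  have hτt : τ ≤ t / 4 := by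
    have : σ * t ≤ 1 / 4 * t := mul_le_mul_of_nonneg_right (le_trans s1 hσm1) ht0.le
    linarith
  set s := (1 - σ) * t with hs
  have hst : t - s = τ := by rw [hs, hτ]; ring
  have hs1 : 1 ≤ s := by linarith
  have hslt : s < t := by linarith
  -- mean value theorem
  have hv2 : ContDiff ℝ 2 (u s) := hS.sol.sol.c2 s (by linarith)
  have hdiff : Differentiable ℝ (u s) := hv2.differentiable (by norm_num)
  have hr1 : 0 < (2 * cc + 4) * τ := by positivity
  obtain ⟨c, hc, hcm⟩ := mvt hdiff x e hr1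
  have hfl := hf t (by linarith) x e ⟨he, ξ, e0, hdir, le_trans hee (min_le_right _ _)⟩ hd
  rw [← hs, ← hτ, hcm] at hfl
  set ys := x + c • e with hys
  set q := (hi - lo) / 2 / (4 * (2 * cc + 4) * τ) with hq
  have hq0 : 0 < q := by
    rw [hq]
    have : 0 < (hi - lo) / 2 := by linarith
    positivity
  have hpy : 2 * q ≤ -(fderiv ℝ (u s) ys e) := by
    have h1 : 2 * q = (hi - lo) / 2 / (2 * ((2 * cc + 4) * τ)) := by
      rw [hq]; field_simp; ring
    rw [h1, div_le_iff₀ (by positivity)]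
    linarith
  set ρs := q / C with hρs
  have hρs0 : 0 < ρs := by positivity
  have hρs1 : ρs ≤ 1 := by
    rw [hρs, hq, div_div, div_le_one (by positivity)]
    have h1 := hM.hi1
    have h2 := hM.lo0
    have h3 : 1 ≤ τ * C := one_le_mul_of_one_le_of_one_le (le_trans hτ0 hττ0) hC1
    have h4 : 1 * 1 ≤ (2 * cc + 4) * (τ * C) :=
      mul_le_mul (by linarith) h3 zero_le_one (by linarith)
    have h5 : 4 * (2 * cc + 4) * τ * C = 4 * ((2 * cc + 4) * (τ * C)) := by ring
    rw [h5]
    linarith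
  -- the function p
  have hcont : Continuous (fun y => fderiv ℝ (u s) y) := hv2.continuous_fderiv (by norm_num)
  have hpmeas : Measurable (fun y => -dx u e s y) := by
    have : Continuous (fun y => -dx u e s y) := by
      unfold dx
      exact (hcont.clm_apply continuous_const).neg
    exact this.measurable
  have hgr : ∀ y, ‖fderiv ℝ (u s) y‖ ≤ C := fun y => le_trans (hCb s hs1 y).1 hC0
  have hpb : ∀ y, |-dx u e s y| ≤ C := by
    intro y
    rw [abs_neg]
    have h1 := (fderiv ℝ (u s) y).le_opNorm e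
    rw [he, mul_one] at h1
    exact le_trans h1 (hgr y)
  have hlow : ∀ y, (closedBall ys ρs).indicator (fun _ => q) y -
      Real.exp (-((K + C3 + 1) * t)) -
      {y | ηE * t ≤ dist x y}.indicator (fun _ => C) y ≤ -dx u e s y := by
    intro y
    have i1 : 0 ≤ {y : E N | ηE * t ≤ dist x y}.indicator (fun _ => C) y :=
      indicator_nonneg (fun _ _ => by linarith) y
    have i2 := Real.exp_pos (-((K + C3 + 1) * t))
    by_cases hy : y ∈ closedBall ys ρs
    · rw [indicator_of_mem hy]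
      have h1 := (hCb s hs1 ys).2.2 y
      have h2 : |fderiv ℝ (u s) ys e - fderiv ℝ (u s) y e| ≤ C * ρs := by
        have h3 := (fderiv ℝ (u s) ys - fderiv ℝ (u s) y).le_opNorm e
        rw [he, mul_one] at h3
        have h4 : ‖ys - y‖ ≤ ρs := by
          rw [mem_closedBall, dist_comm, dist_eq_norm] at hy
          exact hy
        have h5 : C0 * ‖ys - y‖ ≤ C * ρs := by
          calc C0 * ‖ys - y‖ ≤ C * ‖ys - y‖ := mul_le_mul_of_nonneg_right hC0 (norm_nonneg _)
            _ ≤ C * ρs := mul_le_mul_of_nonneg_left h4 (by linarith)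
        exact le_trans h3 (le_trans h1 h5)
      have h6 : C * ρs = q := by
        rw [hρs]; field_simp
      rw [h6] at h2
      have h7 := (abs_le.1 h2).1
      have h8 : dx u e s y = fderiv ℝ (u s) y e := rfl
      rw [h8]
      linarith
    · rw [indicator_of_notMem hy]
      by_cases hy2 : y ∈ {y : E N | ηE * t ≤ dist x y}
      · rw [indicator_of_mem hy2]
        have := (abs_le.1 (hpb y)).1
        linarith
      · rw [indicator_of_notMem hy2]
        have hy3 : dist y x ≤ ηE * t := by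
          rw [dist_comm]
          simp only [mem_ofPred_eq, not_le] at hy2
          exact hy2.le
        have h9 := hE t (by linarith) x e ⟨he, ξ, e0, hdir, le_trans hee (min_le_left _ _)⟩
          (by
            have h10 : σ * t ≤ cc / 2 * t :=
              mul_le_mul_of_nonneg_right (le_trans s1 hσm2) ht0.le
            linarith) s
          ⟨mul_le_mul_of_nonneg_right (by linarith) ht0.le, hslt.le⟩ y hy3
        linarith
  -- kernel
  obtain ⟨kM, kB, -⟩ := hK N K (pot f u) hPt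
  have hrep := hR N K s t (pot f u) (dx u e) hPt ((hLin s t (by linarith) hslt).1 e) s t le_rfl
    hslt le_rfl x
  have hGm : Measurable (fun y => gk (pot f u) t x s y) :=
    (kM s t hslt).comp (measurable_const.prodMk measurable_id)
  have hbb := fun y => kB s t hslt x y
  rw [hst] at hbb
  have hμ : (volume (closedBall ys ρs)).toReal = ρs ^ N * v := by
    rw [Measure.addHaar_closedBall volume ys hρs0.le, finrank_euclideanSpace_fin,
      ENNReal.toReal_mul, ENNReal.toReal_ofReal (by positivity)]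
  have hmain := int_lower (κ := K * τ) (q := q) (m1 := Real.exp (-((K + C3 + 1) * t))) (C := C)
    (r := (2 * cc + 4) * τ + 1) (μ := ρs ^ N * v) hτpos hq0.le (Real.exp_pos _).le
    (by linarith) (G := fun y => gk (pot f u) t x s y) (p := fun y => -dx u e s y)
    (x := x) (ys := ys) (ρs := ρs) hGm (fun y => (hbb y).1) (fun y => (hbb y).2) hpmeas hpb
    hμ.symm ?_ (rr := ηE * t) hlow
  swap
  · intro y hy
    have h1 : ‖x - y‖ ≤ ‖x - ys‖ + ‖ys - y‖ := by
      have : x - y = (x - ys) + (ys - y) := by abel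
      rw [this]; exact norm_add_le _ _
    have h2 : ‖x - ys‖ ≤ (2 * cc + 4) * τ := by
      rw [hys, sub_add_cancel_left, norm_neg, norm_smul, he, mul_one]
      exact hc
    have h3 : ‖ys - y‖ ≤ ρs := by
      rw [mem_closedBall, dist_comm, dist_eq_norm] at hy
      exact hy
    linarith
  have hneg : ∫ y, gk (pot f u) t x s y * -dx u e s y = -dx u e t x := by
    rw [hrep, ← integral_neg]
    congr 1
    ext y
    ring
  rw [hneg] at hmain
  -- numerical conclusion
  have hn := hnum τ hττ0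
  have hρN : ρs ^ N = ((hi - lo) / 2 / (4 * (2 * cc + 4) * τ * C)) ^ N := by
    rw [hρs, hq, div_div]
  rw [← hρN, ← hq, ← hC3] at hn
  have hexpt : Real.exp (-t) ≤ 1 / 2 := by
    have h1 : 2 ≤ Real.exp t := by linarith [Real.add_one_le_exp t]
    rw [Real.exp_neg, ← one_div]
    exact one_div_le_one_div_of_le (by norm_num) h1
  have hexpt2 : C * A * Real.exp (-t) ≤ 1 / 2 := by
    have h1 : t ≤ Real.exp t := by linarith [Real.add_one_le_exp t]
    have h2 : 2 * C * A ≤ Real.exp t := by linarith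
    rw [Real.exp_neg, ← div_eq_mul_inv, div_le_iff₀ (Real.exp_pos _)]
    linarith
  have hKC : (K + C3) * τ ≤ (K + C3) * t :=
    mul_le_mul_of_nonneg_left (by linarith) (by linarith)
  have e1 : Real.exp (-((K + C3 + 1) * t)) * Real.exp (K * τ) ≤
      1 / 2 * Real.exp (-(C3 * τ)) := by
    calc Real.exp (-((K + C3 + 1) * t)) * Real.exp (K * τ)
        = Real.exp (-((K + C3 + 1) * t) + K * τ) := (Real.exp_add _ _).symm
      _ ≤ Real.exp (-t + -(C3 * τ)) := by
          apply Real.exp_le_exp.2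
          linarith
      _ = Real.exp (-t) * Real.exp (-(C3 * τ)) := Real.exp_add _ _
      _ ≤ _ := mul_le_mul_of_nonneg_right hexpt (Real.exp_pos _).le
  have htail := hT N (1 / 2) τ (ηE * t) (by norm_num) (by norm_num) hτpos (by positivity) x
    ({y : E N | ηE * t ≤ dist x y}.indicator (fun _ => 1))
    ((measurable_const.indicator (measurableSet_le measurable_const
      (measurable_const.dist measurable_id))).aestronglyMeasurable)
    (fun y => by by_cases h : y ∈ {y : E N | ηE * t ≤ dist x y} <;> simp [h])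
    (fun y hy => by
      rw [indicator_of_notMem]
      simpa using hy)
  have e2 : C * (Real.exp (K * τ) *
      P τ ({y : E N | ηE * t ≤ dist x y}.indicator (fun _ => 1)) x) ≤
      1 / 2 * Real.exp (-(C3 * τ)) := by
    have g1 : (K + C3 + 1) * t ≤ (1 - 1 / 2) * (ηE * t) ^ 2 / (4 * τ) := by
      rw [le_div_iff₀ (by positivity), hτ]
      rw [le_div_iff₀ (by positivity)] at s3
      have : σ * (8 * (K + C3 + 1)) * t ^ 2 ≤ ηE ^ 2 * t ^ 2 :=
        mul_le_mul_of_nonneg_right s3 (by positivity)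
      linarith
    calc C * (Real.exp (K * τ) *
        P τ ({y : E N | ηE * t ≤ dist x y}.indicator (fun _ => 1)) x)
        ≤ C * (Real.exp (K * τ) * (A * Real.exp (-((K + C3 + 1) * t)))) := by
          apply mul_le_mul_of_nonneg_left _ (by linarith)
          apply mul_le_mul_of_nonneg_left _ (Real.exp_pos _).le
          refine le_trans htail ?_
          apply mul_le_mul_of_nonneg_left _ hA0.le
          exact Real.exp_le_exp.2 (by linarith)
      _ = C * A * Real.exp (K * τ + -((K + C3 + 1) * t)) := by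
          rw [Real.exp_add]; ring
      _ ≤ C * A * Real.exp (-t + -(C3 * τ)) := by
          apply mul_le_mul_of_nonneg_left _ (by positivity)
          apply Real.exp_le_exp.2
          linarith
      _ = C * A * Real.exp (-t) * Real.exp (-(C3 * τ)) := by
          rw [Real.exp_add]; ring
      _ ≤ _ := mul_le_mul_of_nonneg_right hexpt2 (Real.exp_pos _).le
  have e3 : q * (Real.exp (-(K * τ)) * ((4 * Real.pi * τ) ^ (-(N : ℝ) / 2) *
      Real.exp (-((2 * cc + 4) * τ + 1) ^ 2 / (4 * τ)))) * (ρs ^ N * v) ≥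
      2 * Real.exp (-(C3 * τ)) := hn
  linarith

end Pool.Agent.H66.RF.FRM
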