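import Pool.Agent.H66.RF.FRM

/-!
# MP_609556_an, module FRM: final step
-/

open MeasureTheory Set Filter Topology Metric
open Pool.Agent.H29.TF (hk P)
open Pool.Agent.H91.RD
open Pool.Agent.H91.RF

namespace Pool.Agent.H66.RF.FRM

/-- [FRM] positivity and lower bound of `p` at the ratio -/
theorem FRM (hE1 : Pool.Agent.H91.RF.T_E1) (hG : T_GEOB) (hL : T_LINU) (hK : T_KER)
    (hR : T_KREP) (hT : T_TAIL) : T_FRM := by
  intro N f K cc lo hi U u hS hM
  obtain ⟨C4, hC4, σm, hσm, η1, hη1, hcore⟩ := core hE1 hG hL hK hR hT hS hM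
  set θ := min (η1 / 4) (1 / 2) with hθ
  have hθ0 : 0 < θ := by positivity
  have hθ1 : θ ≤ η1 / 4 := min_le_left _ _
  set η0 := min (η1 / 2) σm with hη0
  have hη00 : 0 < η0 := by positivity
  refine ⟨1 + 1 / θ, C4, η0, ?_, hC4, hη00, ?_, ?_⟩
  · have : 0 < 1 / θ := by positivity
    linarith
  · -- positivity
    obtain ⟨T, hT0, hc⟩ := hcore σm hσm le_rfl
    refine ⟨T, hT0, ?_⟩
    intro t ht x e hN hd
    have ht0 : 0 < t := by linarith
    obtain ⟨he, ξ, e0, hdir, hee⟩ := hN
    have hd' : |infDist x U - cc * t| ≤ σm * t :=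
      le_trans hd (mul_le_mul_of_nonneg_right (min_le_right _ _) ht0.le)
    have hee1 : ‖e - e0‖ ≤ η1 / 2 := le_trans hee (min_le_left _ _)
    have hpos : ∀ e', ‖e'‖ = 1 → ‖e' - e‖ ≤ η1 / 2 → 0 < -dx u e' t x := by
      intro e' h1 h2
      have h3 : ‖e' - e0‖ ≤ η1 := by
        have h4 : ‖e' - e0‖ ≤ ‖e' - e‖ + ‖e - e0‖ := by
          have : e' - e0 = (e' - e) + (e - e0) := by abel
          rw [this]; exact norm_add_le _ _
        linarith
      exact lt_of_lt_of_le (Real.exp_pos _) (hc t ht x e' ⟨h1, ξ, e0, hdir, h3⟩ hd')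
    have hp := hpos e he (by simpa using by positivity)
    refine ⟨hp, ?_⟩
    -- orthogonal unit directions
    have hort : ∀ h : E N, ‖h‖ = 1 → inner ℝ h e = 0 →
        θ * dx u h t x < -dx u e t x := by
      intro h hh hhe
      set m := ‖e + θ • h‖ with hm
      have hm2 : m ^ 2 = 1 + θ ^ 2 := by
        rw [hm, norm_add_sq_real, norm_smul, hh, he, real_inner_smul_right,
          real_inner_comm, hhe, Real.norm_of_nonneg hθ0.le]
        ring
      have hm1 : 1 ≤ m := by
        by_contra hcon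
        push Not at hcon
        have : m ^ 2 < 1 := by
          have h0 : 0 ≤ m := norm_nonneg _
          nlinarith
        nlinarith
      have hm3 : m ≤ 1 + θ := by
        have h0 : 0 ≤ m := norm_nonneg _
        nlinarith
      have h5 := hpos (m⁻¹ • (e + θ • h)) (by
          rw [norm_smul, ← hm, Real.norm_of_nonneg (by positivity), inv_mul_cancel₀ (by linarith)])
        (by
          have h6 : m⁻¹ • (e + θ • h) - e = m⁻¹ • ((1 - m) • e + θ • h) := by
            rw [smul_add, smul_add, smul_smul m⁻¹ (1 - m) e, mul_sub, mul_one,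
              inv_mul_cancel₀ (by linarith), sub_smul, one_smul]
            abel
          rw [h6, norm_smul, Real.norm_of_nonneg (by positivity)]
          have h7 : ‖(1 - m) • e + θ • h‖ ≤ (m - 1) + θ := by
            refine le_trans (norm_add_le _ _) ?_
            rw [norm_smul, norm_smul, he, hh, Real.norm_of_nonneg hθ0.le, Real.norm_eq_abs,
              abs_of_nonpos (by linarith)]
            linarith
          have h8 : m⁻¹ ≤ 1 := inv_le_one_of_one_le₀ hm1
          have h9 : 0 ≤ ‖(1 - m) • e + θ • h‖ := norm_nonneg _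
          have h10 : m⁻¹ * ‖(1 - m) • e + θ • h‖ ≤ 1 * ‖(1 - m) • e + θ • h‖ :=
            mul_le_mul_of_nonneg_right h8 h9
          linarith)
      have h6 : dx u (m⁻¹ • (e + θ • h)) t x = m⁻¹ * (dx u e t x + θ * dx u h t x) := by
        unfold dx
        rw [map_smul, map_add, map_smul, smul_eq_mul, smul_eq_mul]
      rw [h6] at h5
      have h7 : 0 < m⁻¹ := by positivity
      have h8 : dx u e t x + θ * dx u h t x < 0 := by
        by_contra hcon
        push Not at hcon
        have := mul_nonneg h7.le hcon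
        linarith
      linarith
    unfold gr
    apply ContinuousLinearMap.opNorm_le_bound
    · have : 0 < 1 / θ := by positivity
      have h2 : 0 < 1 + 1 / θ := by linarith
      exact (mul_pos h2 hp).le
    intro w
    set a := inner ℝ w e with ha
    set z := w - a • e with hz
    have hze : inner ℝ z e = 0 := by
      rw [hz, inner_sub_left, real_inner_smul_left, real_inner_self_eq_norm_sq, he, ← ha]
      ring
    have hwz : w = a • e + z := by rw [hz]; abel
    have haw : |a| ≤ ‖w‖ := by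
      have := abs_real_inner_le_norm w e
      rwa [he, mul_one] at this
    have hzw : ‖z‖ ≤ ‖w‖ := by
      have h1 : ‖w‖ ^ 2 = ‖a • e‖ ^ 2 + ‖z‖ ^ 2 := by
        conv_lhs => rw [hwz]
        rw [norm_add_sq_real, real_inner_smul_left, real_inner_comm, hze]
        ring
      have h2 : ‖z‖ ^ 2 ≤ ‖w‖ ^ 2 := by
        have := sq_nonneg ‖a • e‖
        linarith
      exact (pow_le_pow_iff_left₀ (norm_nonneg _) (norm_nonneg _) two_ne_zero).1 h2
    have hfz : |fderiv ℝ (u t) x z| ≤ ‖z‖ * (1 / θ * -dx u e t x) := by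
      by_cases hz0 : z = 0
      · rw [hz0]; simp
      have hzn : 0 < ‖z‖ := norm_pos_iff.2 hz0
      have h1 := hort (‖z‖⁻¹ • z) (by
          rw [norm_smul, norm_inv, norm_norm, inv_mul_cancel₀ hzn.ne'])
        (by rw [real_inner_smul_left, hze, mul_zero])
      have h2 := hort (-(‖z‖⁻¹ • z)) (by
          rw [norm_neg, norm_smul, norm_inv, norm_norm, inv_mul_cancel₀ hzn.ne'])
        (by rw [inner_neg_left, real_inner_smul_left, hze, mul_zero, neg_zero])
      have h3 : dx u (‖z‖⁻¹ • z) t x = ‖z‖⁻¹ * fderiv ℝ (u t) x z := by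
        unfold dx; simp [map_smul]
      have h4 : dx u (-(‖z‖⁻¹ • z)) t x = -(‖z‖⁻¹ * fderiv ℝ (u t) x z) := by
        unfold dx; simp [map_smul, map_neg]
      rw [h3] at h1
      rw [h4] at h2
      have h5 : θ * (‖z‖⁻¹ * |fderiv ℝ (u t) x z|) ≤ -dx u e t x := by
        rcases abs_cases (fderiv ℝ (u t) x z) with ⟨h, _⟩ | ⟨h, _⟩
        · rw [h]; linarith
        · rw [h]; linarith
      have h6 : |fderiv ℝ (u t) x z| = ‖z‖ * (1 / θ * (θ * (‖z‖⁻¹ * |fderiv ℝ (u t) x z|))) := by
        field_simp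
      rw [h6]
      apply mul_le_mul_of_nonneg_left _ hzn.le
      exact mul_le_mul_of_nonneg_left h5 (by positivity)
    have hval : fderiv ℝ (u t) x w = a * dx u e t x + fderiv ℝ (u t) x z := by
      conv_lhs => rw [hwz]
      unfold dx
      simp [map_add, map_smul]
    rw [hval, Real.norm_eq_abs]
    have h1 : |a * dx u e t x| ≤ ‖w‖ * -dx u e t x := by
      rw [abs_mul, ← abs_neg (dx u e t x), abs_of_pos hp]
      exact mul_le_mul_of_nonneg_right haw hp.le
    have h2 : ‖z‖ * (1 / θ * -dx u e t x) ≤ ‖w‖ * (1 / θ * -dx u e t x) :=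
      mul_le_mul_of_nonneg_right hzw (by positivity)
    have h3 := abs_add_le (a * dx u e t x) (fderiv ℝ (u t) x z)
    have h4 : (1 + 1 / θ) * -dx u e t x * ‖w‖ = ‖w‖ * -dx u e t x +
        ‖w‖ * (1 / θ * -dx u e t x) := by ring
    rw [h4]
    linarith
  · -- lower bound
    intro ε hε
    obtain ⟨n, hn⟩ := exists_nat_gt (C4 * σm / ε)
    have hn0 : 0 < (n : ℝ) := lt_of_le_of_lt (by positivity) hn
    have hnn : n ≠ 0 := by
      rintro rfl
      simp at hn0
    have hn1 : 1 ≤ n := Nat.one_le_iff_ne_zero.2 hnn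
    have hch : ∀ j : ℕ, ∃ T > 0, ∀ t ≥ T, 1 ≤ j → j ≤ n → ∀ x e,
        NDir U η1 x e → |infDist x U - cc * t| ≤ σm * j / n * t →
        Real.exp (-(C4 * (σm * j / n * t))) ≤ -dx u e t x := by
      intro j
      by_cases hj : 1 ≤ j ∧ j ≤ n
      · have hj1 : (1 : ℝ) ≤ j := by exact_mod_cast hj.1
        have hj2 : (j : ℝ) ≤ n := by exact_mod_cast hj.2
        obtain ⟨T, hT0, h⟩ := hcore (σm * j / n) (by positivity) (by
          rw [div_le_iff₀ hn0]
          exact mul_le_mul_of_nonneg_left hj2 hσm.le)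
        exact ⟨T, hT0, fun t ht _ _ x e hN hd => h t ht x e hN hd⟩
      · exact ⟨1, one_pos, fun t _ h1 h2 => absurd ⟨h1, h2⟩ hj⟩
    choose T hT0 hTj using hch
    refine ⟨∑ j ∈ Finset.range (n + 1), T j, Finset.sum_pos (fun j _ => hT0 j)
      ⟨0, by simp⟩, ?_⟩
    intro t ht x e hN hd
    have htj : ∀ j ≤ n, T j ≤ t := fun j hj =>
      le_trans (Finset.single_le_sum (fun i _ => (hT0 i).le)
        (Finset.mem_range.2 (Nat.lt_succ_of_le hj))) ht
    have ht0 : 0 < t := lt_of_lt_of_le (hT0 0) (htj 0 (Nat.zero_le _))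
    obtain ⟨he, ξ, e0, hdir, hee⟩ := hN
    have hd' : |infDist x U - cc * t| ≤ σm * t :=
      le_trans hd (mul_le_mul_of_nonneg_right (min_le_right _ _) ht0.le)
    set δ := |infDist x U - cc * t| with hδ
    have hδ0 : 0 ≤ δ := abs_nonneg _
    set j := max 1 ⌈δ * n / (σm * t)⌉₊ with hj
    have hj1 : 1 ≤ j := le_max_left _ _
    have hjn : j ≤ n := by
      apply max_le hn1
      apply Nat.ceil_le.2
      rw [div_le_iff₀ (by positivity)]
      nlinarith
    have hj2 : δ * n / (σm * t) ≤ j := by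
      refine le_trans (Nat.le_ceil _) ?_
      exact_mod_cast le_max_right _ _
    have hj3 : (j : ℝ) ≤ δ * n / (σm * t) + 1 := by
      rw [hj, Nat.cast_max]
      apply max_le
      · have : 0 ≤ δ * n / (σm * t) := by positivity
        simpa using this
      · exact (Nat.ceil_lt_add_one (by positivity)).le
    have hA : δ ≤ σm * j / n * t := by
      rw [div_le_iff₀ (by positivity)] at hj2
      rw [div_mul_eq_mul_div, le_div_iff₀ hn0]
      linarith
    have hB : σm * j / n * t ≤ δ + σm / n * t := by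
      have h1 : σm * j / n * t ≤ σm * (δ * n / (σm * t) + 1) / n * t := by
        apply mul_le_mul_of_nonneg_right _ ht0.le
        apply div_le_div_of_nonneg_right _ hn0.le
        exact mul_le_mul_of_nonneg_left hj3 hσm.le
      have h2 : σm * (δ * n / (σm * t) + 1) / n * t = δ + σm / n * t := by
        field_simp
      linarith
    have hlow := hTj j t (htj j hjn) hj1 hjn x e ⟨he, ξ, e0, hdir,
      le_trans hee (le_trans (min_le_left _ _) (by linarith))⟩ hA
    refine le_trans (Real.exp_le_exp.2 ?_) hlow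
    have h1 : C4 * (σm / n) ≤ ε := by
      rw [← mul_div_assoc, div_le_iff₀ hn0]
      rw [div_lt_iff₀ hε] at hn
      linarith
    have h2 : C4 * (σm * j / n * t) ≤ C4 * (δ + σm / n * t) :=
      mul_le_mul_of_nonneg_left hB (by linarith)
    have h3 : C4 * (σm / n) * t ≤ ε * t := mul_le_mul_of_nonneg_right h1 ht0.le
    nlinarith

end Pool.Agent.H66.RF.FRM
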