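import Pool.Agent.H91.RF.TargetsA
import Pool.Agent.H91.RF.TargetsR

/-!
# MP_609556_an, module LIMF: limits are monotone
-/

open MeasureTheory Set Filter Topology Metric
open Pool.Agent.H29.TF (hk P)
open Pool.Agent.H91.RD
open Pool.Agent.H91.RF

namespace Pool.Agent.H66.RF.LIMF

/-- pointwise form of `LimAt` -/
theorem limAt_pt {N : ℕ} {u : ℝ → E N → ℝ} {tn : ℕ → ℝ} {xn : ℕ → E N} {w : ℝ → E N → ℝ}
    (h : LimAt u tn xn w) (t : ℝ) (x : E N) :
    Tendsto (fun n => u (tn n + t) (xn n + x)) atTop (𝓝 (w t x)) := by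
  have h1 := h (max 1 (max |t| ‖x‖)) (lt_of_lt_of_le one_pos (le_max_left _ _))
  have h2 : ((t, x) : ℝ × E N) ∈ Icc (-(max 1 (max |t| ‖x‖))) (max 1 (max |t| ‖x‖)) ×ˢ
      closedBall (0 : E N) (max 1 (max |t| ‖x‖)) := by
    refine ⟨abs_le.1 (le_trans (le_max_left _ _) (le_max_right _ _)), ?_⟩
    rw [mem_closedBall_zero_iff]
    exact le_trans (le_max_right _ _) (le_max_right _ _)
  exact h1.tendsto_at h2

/-- subsequences of `LimAt` -/
theorem limAt_comp {N : ℕ} {u : ℝ → E N → ℝ} {tn : ℕ → ℝ} {xn : ℕ → E N} {w : ℝ → E N → ℝ}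
    (h : LimAt u tn xn w) {σ : ℕ → ℕ} (hσ : StrictMono σ) : LimAt u (tn ∘ σ) (xn ∘ σ) w := by
  intro R hR
  have h1 := h R hR
  rw [Metric.tendstoUniformlyOn_iff] at h1 ⊢
  intro ε hε
  exact hσ.tendsto_atTop.eventually (h1 ε hε)

/-- lower bound of limits -/
theorem low {N : ℕ} {U : Set (E N)} {u : ℝ → E N → ℝ} {cc bb lam : ℝ}
    (hA : ∀ ε > 0, ∃ T > 0, ∀ t ≥ T, ∀ x, infDist x U ≤ (cc - ε) * t → bb - ε ≤ u t x)
    {tn : ℕ → ℝ} {xn : ℕ → E N} {w : ℝ → E N → ℝ} (ht : Tendsto tn atTop atTop)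
    (hw : LimAt u tn xn w) (hlam : lam < cc) (hr : ∀ᶠ n in atTop, infDist (xn n) U ≤ lam * tn n)
    (t : ℝ) (x : E N) : bb ≤ w t x := by
  have key : ∀ ε > 0, ε ≤ (cc - lam) / 2 → bb - ε ≤ w t x := by
    intro ε hε hε2
    obtain ⟨T, hT, h⟩ := hA ε hε
    apply ge_of_tendsto (limAt_pt hw t x)
    have e1 : ∀ᶠ n in atTop, T + |t| ≤ tn n := ht.eventually_ge_atTop _
    have e2 : ∀ᶠ n in atTop, (‖x‖ + |cc - ε| * |t|) / ((cc - lam) / 2) ≤ tn n :=
      ht.eventually_ge_atTop _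
    filter_upwards [hr, e1, e2] with n h1 h2 h3
    have ht' : -|t| ≤ t := neg_abs_le t
    apply h _ (by linarith)
    have h4 : infDist (xn n + x) U ≤ infDist (xn n) U + ‖x‖ := by
      have := infDist_le_infDist_add_dist (s := U) (x := xn n + x) (y := xn n)
      rwa [dist_self_add_left] at this
    rw [div_le_iff₀ (by linarith)] at h3
    have h5 : -(|cc - ε| * |t|) ≤ (cc - ε) * t := by
      have := neg_abs_le ((cc - ε) * t)
      rwa [abs_mul] at this
    have htn : 0 ≤ tn n := by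
      have := abs_nonneg t
      linarith
    have h6 : (lam + (cc - lam) / 2) * tn n ≤ (cc - ε) * tn n :=
      mul_le_mul_of_nonneg_right (by linarith) htn
    linarith
  by_contra hcon
  push Not at hcon
  have h1 := key (min ((cc - lam) / 2) ((bb - w t x) / 2)) (lt_min (by linarith) (by linarith))
    (min_le_left _ _)
  have h2 := min_le_right ((cc - lam) / 2) ((bb - w t x) / 2)
  linarith

/-- upper bound of limits -/
theorem upp {N : ℕ} {U : Set (E N)} {u : ℝ → E N → ℝ} {cc bb lam : ℝ}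
    (hA : ∀ ε > 0, ∃ T > 0, ∀ t ≥ T, ∀ x, (cc + ε) * t ≤ infDist x U → u t x ≤ bb + ε)
    {tn : ℕ → ℝ} {xn : ℕ → E N} {w : ℝ → E N → ℝ} (ht : Tendsto tn atTop atTop)
    (hw : LimAt u tn xn w) (hlam : cc < lam) (hr : ∀ᶠ n in atTop, lam * tn n ≤ infDist (xn n) U)
    (t : ℝ) (x : E N) : w t x ≤ bb := by
  have key : ∀ ε > 0, ε ≤ (lam - cc) / 2 → w t x ≤ bb + ε := by
    intro ε hε hε2
    obtain ⟨T, hT, h⟩ := hA ε hε
    apply le_of_tendsto (limAt_pt hw t x)
    have e1 : ∀ᶠ n in atTop, T + |t| ≤ tn n := ht.eventually_ge_atTop _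
    have e2 : ∀ᶠ n in atTop, (‖x‖ + |cc + ε| * |t|) / ((lam - cc) / 2) ≤ tn n :=
      ht.eventually_ge_atTop _
    filter_upwards [hr, e1, e2] with n h1 h2 h3
    have ht' : -|t| ≤ t := neg_abs_le t
    apply h _ (by linarith)
    have h4 : infDist (xn n) U ≤ infDist (xn n + x) U + ‖x‖ := by
      have := infDist_le_infDist_add_dist (s := U) (x := xn n) (y := xn n + x)
      rwa [dist_self_add_right] at this
    rw [div_le_iff₀ (by linarith)] at h3
    have h5 : (cc + ε) * t ≤ |cc + ε| * |t| := by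
      have := le_abs_self ((cc + ε) * t)
      rwa [abs_mul] at this
    have htn : 0 ≤ tn n := by
      have := abs_nonneg t
      linarith
    have h6 : (cc + ε) * tn n ≤ (lam - (lam - cc) / 2) * tn n :=
      mul_le_mul_of_nonneg_right (by linarith) htn
    linarith
  by_contra hcon
  push Not at hcon
  have h1 := key (min ((lam - cc) / 2) ((w t x - bb) / 2)) (lt_min (by linarith) (by linarith))
    (min_le_left _ _)
  have h2 := min_le_right ((lam - cc) / 2) ((w t x - bb) / 2)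
  linarith

/-- a function whose gradient is antiparallel to `e` is nonincreasing in the half-space of
directions -/
theorem mono_of {N : ℕ} {w : ℝ → E N → ℝ} {e : E N} (he : ‖e‖ = 1)
    (hd : ∀ t, Differentiable ℝ (w t)) (hg : ∀ t x, gr w t x ≤ -dx w e t x) : Mono w e := by
  intro t x y hy
  have hL : ∀ z, 0 ≤ fderiv ℝ (w t) z y := by
    intro z
    set g : E N := (InnerProductSpace.toDual ℝ (E N)).symm (fderiv ℝ (w t) z) with hgdef
    have h1 : ∀ v, fderiv ℝ (w t) z v = inner ℝ g v := fun v =>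
      (InnerProductSpace.toDual_symm_apply).symm
    have h2 : ‖g‖ = ‖fderiv ℝ (w t) z‖ := by rw [hgdef]; simp
    have h3 : ‖g‖ ≤ -inner ℝ g e := by
      have := hg t z
      unfold gr dx at this
      rw [h1 e, ← h2] at this
      exact this
    have h4 : ‖g + ‖g‖ • e‖ ^ 2 ≤ 0 := by
      rw [norm_add_sq_real, real_inner_smul_right, norm_smul, he, norm_norm]
      have h5 := norm_nonneg g
      have h6 : ‖g‖ * (‖g‖ + inner ℝ g e) ≤ 0 :=
        mul_nonpos_of_nonneg_of_nonpos h5 (by linarith)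
      linarith
    have h5 : g = -(‖g‖ • e) := by
      have h6 : ‖g + ‖g‖ • e‖ = 0 := by
        have := sq_nonneg ‖g + ‖g‖ • e‖
        exact pow_eq_zero_iff two_ne_zero |>.1 (le_antisymm h4 this)
      exact eq_neg_of_add_eq_zero_left (norm_eq_zero.1 h6)
    rw [h1 y]
    have h6 : inner ℝ g y = -(‖g‖ * inner ℝ y e) := by
      conv_lhs => rw [h5]
      rw [inner_neg_left, real_inner_smul_left, real_inner_comm]
    rw [h6]
    have := mul_nonpos_of_nonneg_of_nonpos (norm_nonneg g) hy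
    linarith
  have hφ : ∀ s : ℝ, HasDerivAt (fun s : ℝ => w t (x + s • y)) (fderiv ℝ (w t) (x + s • y) y) s := by
    intro s
    have h1 : HasDerivAt (fun s : ℝ => x + s • y) y s := by
      simpa using ((hasDerivAt_id s).smul_const y).const_add x
    exact (hd t (x + s • y)).hasFDerivAt.comp_hasDerivAt s h1
  have hm : Monotone (fun s : ℝ => w t (x + s • y)) :=
    monotone_of_deriv_nonneg (fun s => (hφ s).differentiableAt)
      (fun s => by rw [(hφ s).deriv]; exact hL _)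
  have := hm (show (0 : ℝ) ≤ 1 by norm_num)
  simpa using this

/-- constant functions are monotone -/
theorem mono_const {N : ℕ} {w : ℝ → E N → ℝ} {a : ℝ} (h : ∀ t x, w t x = a) (e : E N) :
    Mono w e := by
  intro t x y _
  rw [h, h]

/-- existence of a unit vector -/
theorem exists_unit {N : ℕ} (hN : 1 ≤ N) : ∃ e : E N, ‖e‖ = 1 :=
  ⟨EuclideanSpace.single ⟨0, hN⟩ 1, by simp⟩

/-- limits at a ratio are monotone -/
theorem ratio (hS : T_SEQ) (hCV : T_CONV) {N : ℕ} {f : ℝ → ℝ} {K cc : ℝ} {U : Set (E N)}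
    {u : ℝ → E N → ℝ} (hSt : Stg f K U u) (hcc : 0 < cc) (hR : RZero U u cc) {tn : ℕ → ℝ}
    {xn : ℕ → E N} {e : E N} {w : ℝ → E N → ℝ} (he : ‖e‖ = 1) (hA : AtSeq U cc tn xn e)
    (hE : Ent f w) (hw : LimAt u tn xn w) : Mono w e := by
  obtain ⟨hC2, -, hCf, -⟩ := hCV N f K U u tn xn w hSt.reac hSt.lip hSt.sol hA.1 hE hw
  apply mono_of he (fun t => (hC2 t).differentiable (by norm_num))
  intro t x
  have hpt : Tendsto (fun n => fderiv ℝ (u (tn n + t)) (xn n + x)) atTop
      (𝓝 (fderiv ℝ (w t) x)) := by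
    have h1 := hCf (max 1 (max |t| ‖x‖)) (lt_of_lt_of_le one_pos (le_max_left _ _))
    have h2 : ((t, x) : ℝ × E N) ∈ Icc (-(max 1 (max |t| ‖x‖))) (max 1 (max |t| ‖x‖)) ×ˢ
        closedBall (0 : E N) (max 1 (max |t| ‖x‖)) := by
      refine ⟨abs_le.1 (le_trans (le_max_left _ _) (le_max_right _ _)), ?_⟩
      rw [mem_closedBall_zero_iff]
      exact le_trans (le_max_right _ _) (le_max_right _ _)
    exact h1.tendsto_at h2
  have hg : Tendsto (fun n => gr u (tn n + t) (xn n + x)) atTop (𝓝 (gr w t x)) := hpt.norm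
  have hp : Tendsto (fun n => -dx u e (tn n + t) (xn n + x)) atTop (𝓝 (-dx w e t x)) := by
    have h1 : Tendsto (fun n => fderiv ℝ (u (tn n + t)) (xn n + x) e) atTop
        (𝓝 (fderiv ℝ (w t) x e)) :=
      ((ContinuousLinearMap.apply ℝ ℝ e).continuous.tendsto _).comp hpt
    exact h1.neg
  have hsh := (hS N U cc hSt.condC hSt.ne hcc).1 tn xn e hA (fun _ => t) (fun _ => x)
    (max |t| ‖x‖) (fun _ => ⟨le_max_left _ _, le_max_right _ _⟩)
  have key : ∀ ε > 0, gr w t x ≤ (1 + ε) * -dx w e t x := by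
    intro ε hε
    obtain ⟨η, hη, T, hT, h⟩ := hR ε hε
    apply le_of_tendsto_of_tendsto hg (hp.const_mul (1 + ε))
    filter_upwards [hsh.2 η hη, hsh.1.eventually_ge_atTop T] with n h1 h2
    exact h _ h2 _ _ h1.1 h1.2
  have hlim : Tendsto (fun ε : ℝ => (1 + ε) * -dx w e t x) (𝓝[>] 0)
      (𝓝 ((1 + 0) * -dx w e t x)) := by
    apply Tendsto.mono_left _ nhdsWithin_le_nhds
    exact ((continuous_const.add continuous_id).mul continuous_const).tendsto 0
  rw [add_zero, one_mul] at hlim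
  apply ge_of_tendsto hlim
  filter_upwards [self_mem_nhdsWithin] with ε hε
  exact key ε hε

/-- [LIMF] limits are monotone -/
theorem LIMF (hX : T_EXT) (hMA : T_MA) (hMB : T_MB) (hCV : T_CONV) (hS : T_SEQ) (hE0 : T_E0) :
    T_LIMF := by
  intro N f K U u J b c y hSt hTer hR tn xn htn
  have hJ := hTer.J0
  have hcpos : ∀ j < J, 0 < c j := fun j hj => (hTer.ext j hj).cpos
  -- ratios
  set B := c 0 + 2 with hB
  have hB0 : 0 ≤ B := by have := hcpos 0 hJ; linarith
  set r : ℕ → ℝ := fun n => min (max (infDist (xn n) U / tn n) 0) B with hr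
  have hrm : ∀ n, r n ∈ Icc 0 B := fun n =>
    ⟨le_min (le_max_right _ _) hB0, min_le_right _ _⟩
  obtain ⟨lam, hlamI, σ1, hσ1, hlam⟩ := isCompact_Icc.tendsto_subseq hrm
  have htn1 : Tendsto (tn ∘ σ1) atTop atTop := htn.comp hσ1.tendsto_atTop
  obtain ⟨σ2, w, hσ2, hEnt, hw⟩ := hX N f K U u hSt.lip hSt.sol (tn ∘ σ1) (xn ∘ σ1) htn1
  have hσ12 : StrictMono (σ1 ∘ σ2) := hσ1.comp hσ2
  have htn2 : Tendsto (tn ∘ (σ1 ∘ σ2)) atTop atTop := htn.comp hσ12.tendsto_atTop
  have hlam2 : Tendsto (fun n => r ((σ1 ∘ σ2) n)) atTop (𝓝 lam) :=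
    hlam.comp hσ2.tendsto_atTop
  -- eventual inequalities
  have hupper : ∀ lam' > lam, lam < B → ∀ᶠ n in atTop,
      infDist ((xn ∘ (σ1 ∘ σ2)) n) U ≤ lam' * (tn ∘ (σ1 ∘ σ2)) n := by
    intro lam' h1 h2
    filter_upwards [hlam2.eventually_lt_const (lt_min h1 h2), htn2.eventually_gt_atTop 0]
      with n h3 h4
    have h5 : r ((σ1 ∘ σ2) n) < lam' := lt_of_lt_of_le h3 (min_le_left _ _)
    have h6 : r ((σ1 ∘ σ2) n) < B := lt_of_lt_of_le h3 (min_le_right _ _)
    have h7 : max (infDist (xn ((σ1 ∘ σ2) n)) U / tn ((σ1 ∘ σ2) n)) 0 < lam' := by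
      rcases min_lt_iff.1 h5 with h | h
      · exact h
      · rcases min_lt_iff.1 h6 with h' | h'
        · exact lt_trans h' h
        · exact absurd h' (lt_irrefl _)
    have h8 := lt_of_le_of_lt (le_max_left _ _) h7
    simp only [Function.comp] at h4 h8 ⊢
    rw [div_lt_iff₀ h4] at h8
    exact h8.le
  have hlower : ∀ lam' < lam, ∀ᶠ n in atTop,
      lam' * (tn ∘ (σ1 ∘ σ2)) n ≤ infDist ((xn ∘ (σ1 ∘ σ2)) n) U := by
    intro lam' h1
    filter_upwards [hlam2.eventually_const_lt h1, htn2.eventually_gt_atTop 0]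
      with n h3 h4
    have h7 : lam' < max (infDist (xn ((σ1 ∘ σ2) n)) U / tn ((σ1 ∘ σ2) n)) 0 :=
      lt_of_lt_of_le h3 (min_le_left _ _)
    have h9 : (0 : ℝ) ≤ infDist (xn ((σ1 ∘ σ2) n)) U / tn ((σ1 ∘ σ2) n) := by
      simp only [Function.comp] at h4
      exact div_nonneg infDist_nonneg h4.le
    rw [max_eq_left h9] at h7
    simp only [Function.comp] at h4 h7 ⊢
    rw [lt_div_iff₀ h4] at h7
    exact h7.le
  have hw' : LimAt u (tn ∘ (σ1 ∘ σ2)) (xn ∘ (σ1 ∘ σ2)) w := hw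
  have hlo : ∀ j < J, lam < c j → ∀ t x, b (j + 1) ≤ w t x := by
    intro j hj hlj
    have hcB : c j ≤ c 0 := by
      clear hlj
      induction j with
      | zero => exact le_rfl
      | succ i ih => exact le_trans (hTer.mono i hj) (ih (by omega))
    refine low (hMA N f K U u J b c y hSt hTer j hj) htn2 hw' (lam := (lam + c j) / 2)
      (by linarith) (hupper _ (by linarith) (by linarith))
  have hup : ∀ j < J, c j < lam → ∀ t x, w t x ≤ b j := by
    intro j hj hlj
    exact upp (hMB N f K U u J b c y hSt hTer j hj) htn2 hw' (lam := (lam + c j) / 2)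
      (by linarith) (hlower _ (by linarith))
  obtain ⟨e1, he1⟩ := exists_unit hSt.N1
  by_cases heq : ∃ j < J, c j = lam
  · -- ratio equal to a speed
    obtain ⟨j, hj, hjl⟩ := heq
    have hlpos : 0 < lam := hjl ▸ hcpos j hj
    have hcB : lam ≤ c 0 := by
      rw [← hjl]
      clear hjl
      induction j with
      | zero => exact le_rfl
      | succ i ih => exact le_trans (hTer.mono i hj) (ih (by omega))
    have hpos : ∀ᶠ n in atTop, 0 < infDist ((xn ∘ (σ1 ∘ σ2)) n) U := by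
      filter_upwards [hlower (lam / 2) (by linarith), htn2.eventually_gt_atTop 0] with n h1 h2
      have : 0 < lam / 2 * (tn ∘ (σ1 ∘ σ2)) n := by positivity
      linarith
    obtain ⟨n0, hn0⟩ := eventually_atTop.1 hpos
    have hdir : ∀ n, ∃ ξ e, Dir U ((xn ∘ (σ1 ∘ σ2)) (n + n0)) ξ e := fun n =>
      hE0 N U _ (hn0 (n + n0) (by omega))
    choose ξn en hen using hdir
    have hen1 : ∀ n, en n ∈ sphere (0 : E N) 1 := fun n => by
      rw [mem_sphere_zero_iff_norm]; exact (hen n).unit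
    obtain ⟨e, heS, σ3, hσ3, hee⟩ := (isCompact_sphere (0 : E N) 1).tendsto_subseq hen1
    have he : ‖e‖ = 1 := mem_sphere_zero_iff_norm.1 heS
    have hσs : StrictMono (fun n => σ3 n + n0) := fun a b hab => by
      have := hσ3 hab
      show σ3 a + n0 < σ3 b + n0
      omega
    refine ⟨(σ1 ∘ σ2) ∘ (fun n => σ3 n + n0), w, e, hσ12.comp hσs, hEnt, he,
      limAt_comp hw' hσs, ?_⟩
    have htn3 : Tendsto (tn ∘ ((σ1 ∘ σ2) ∘ (fun n => σ3 n + n0))) atTop atTop :=
      htn2.comp hσs.tendsto_atTop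
    apply ratio hS hCV hSt (hcpos j hj) (hR j hj) he (tn := tn ∘ ((σ1 ∘ σ2) ∘ (fun n => σ3 n + n0)))
      (xn := xn ∘ ((σ1 ∘ σ2) ∘ (fun n => σ3 n + n0))) _ hEnt (limAt_comp hw' hσs)
    refine ⟨htn3, ?_⟩
    intro η hη
    have h1 := hσs.tendsto_atTop.eventually (hlower (lam - η) (by linarith))
    have h2 := hσs.tendsto_atTop.eventually (hupper (lam + η) (by linarith) (by linarith))
    have h3 : ∀ᶠ n in atTop, dist (en (σ3 n)) e < η :=
      (Metric.tendsto_nhds.1 hee) η hη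
    filter_upwards [h1, h2, h3] with n g1 g2 g3
    refine ⟨⟨he, ξn (σ3 n), en (σ3 n), hen (σ3 n), ?_⟩, ?_⟩
    · rw [← dist_eq_norm, dist_comm]
      exact g3.le
    · rw [hjl, abs_le]
      simp only [Function.comp] at g1 g2 ⊢
      constructor <;> linarith
  · push Not at heq
    refine ⟨σ1 ∘ σ2, w, e1, hσ12, hEnt, he1, hw', ?_⟩
    by_cases hA : c 0 < lam
    · have h1 := hup 0 hJ hA
      rw [hTer.b0] at h1
      exact mono_const (a := 0) (fun t x => le_antisymm (h1 t x) (hEnt.2 t x).1) e1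
    by_cases hBc : lam < c (J - 1)
    · have h1 := hlo (J - 1) (by omega) hBc
      rw [show J - 1 + 1 = J by omega, hTer.bJ] at h1
      exact mono_const (a := 1) (fun t x => le_antisymm (hEnt.2 t x).2 (h1 t x)) e1
    have hA' : lam < c 0 := lt_of_le_of_ne (not_lt.1 hA) (fun h => heq 0 hJ h.symm)
    -- intermediate index
    have hmid : ∃ j, j + 1 < J ∧ lam < c j ∧ c (j + 1) < lam := by
      by_contra hcon
      push Not at hcon
      have : ∀ j, j < J → lam < c j := by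
        intro j
        induction j with
        | zero => intro _; exact hA'
        | succ i ih =>
          intro hi
          have h1 := ih (by omega)
          have h2 := hcon i hi h1
          exact lt_of_le_of_ne h2 (fun h => heq (i + 1) hi h.symm)
      exact hBc (this (J - 1) (by omega))
    obtain ⟨j, hj, h1, h2⟩ := hmid
    have h3 := hlo j (by omega) h1
    have h4 := hup (j + 1) hj h2
    exact mono_const (a := b (j + 1)) (fun t x => le_antisymm (h4 t x) (h3 t x)) e1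

end Pool.Agent.H66.RF.LIMF
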